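import Pool.Agent.U485.EH.M6

/-!
# Few exceptional lifts of arbitrary classes modulo the divisors of the moduli

The bound of Elliott and Halberstam at every level `θ < 1` for the residue classes `c(q) + q t` modulo `n`, where `q` is
any divisor of the modulus `n` between `Q₀` and `x ^ (1 / 2 - ε)` and `c(q)` an arbitrary class modulo `q`, for all but
few integers `t`.

Proof. For a single `q` the errors modulo `n = q m` in the classes over the class `c(q)` form a compatible family of
functions of the lift `t`; it is decomposed according to the additive frequencies modulo `m`. The part of the frequencies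
with denominators at most `√x / (q (log x) ^ C)` is small for all `t`, by Moebius inversion and the theorem of Bombieri
and Vinogradov with divisor weights. The mean square of the rest over `t` modulo `m` and over `m` is estimated by the
large sieve and an exact evaluation of the Fourier coefficients of the expected number.
-/

set_option autoImplicit false

namespace Pool.Agent.Results.MP_a78e8f_nt.FewExceptionalLifts

open Finset

/-- `π(x)` -/
def primePi (x : ℕ) : ℕ := ((Icc 1 x).filter (fun p : ℕ => p.Prime)).card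

/-- `π(x; q, a)` -/
def primePiAP (x q a : ℕ) : ℕ := ((Icc 1 x).filter (fun p : ℕ => p.Prime ∧ p ≡ a [MOD q])).card

/-- `|π(x; q, a) - π(x) / φ(q)|` -/
noncomputable def err (x q a : ℕ) : ℝ := |(primePiAP x q a : ℝ) - (primePi x : ℝ) / (Nat.totient q : ℝ)|

/-- The sum of `|π(y(q); n, c(q) + q t) - π(y(q)) / φ(n)|` over all the moduli `1 ≤ n ≤ X` and all their divisors `q`
between `Q₀` and `Q` for which `c(q) + q t` is prime to `n`. -/
noncomputable def total (Q₀ Q X : ℕ) (c y : ℕ → ℕ) (t : ℕ) : ℝ :=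
  ∑ n ∈ Icc 1 X, ∑ q ∈ n.divisors.filter (fun q => Q₀ ≤ q ∧ q ≤ Q ∧ (c q + q * t).Coprime n),
    err (y q) n (c q + q * t)

/-- Let `U`, `ε > 0` and `D ≥ 0` be fixed. There is a `B` with the following property for all large `x`, all
`Q ≤ x ^ (1 / 2 - ε)`, all `X ≤ x ^ (1 - ε)` and all `Q₀ ≥ 1`. For every `q` let `c(q)` be an arbitrary class prime to
`q` and `y(q) ≤ x` an arbitrary height. Then for all the integers `0 ≤ t ≤ x ^ D` with at most
`(X / x) (X / Q₀ + √x) (log x) ^ B` exceptions the sum of `|π(y(q); n, c(q) + q t) - π(y(q)) / φ(n)|` over all the moduli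
`n ≤ X` and all their divisors `Q₀ ≤ q ≤ Q` for which `c(q) + q t` is prime to `n` is at most `x / (log x) ^ U`. -/
theorem result (U : ℕ) (ε D : ℝ) (hε : 0 < ε) (hD : 0 ≤ D) : ∃ B x₀ : ℕ, ∀ x : ℕ, x₀ ≤ x →
    ∀ Q₀ Q X : ℕ, 1 ≤ Q₀ → (Q : ℝ) ≤ (x : ℝ) ^ (1 / 2 - ε) → (X : ℝ) ≤ (x : ℝ) ^ (1 - ε) →
    ∀ c y : ℕ → ℕ, (∀ q, 1 ≤ q → (c q).Coprime q) → (∀ q, y q ≤ x) →
    ∀ T : Finset ℕ, (∀ t ∈ T, (t : ℝ) ≤ (x : ℝ) ^ D ∧ x / Real.log x ^ U < total Q₀ Q X c y t) →
    (T.card : ℝ) ≤ X * (X / Q₀ + Real.sqrt x) / x * Real.log x ^ B := by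
  obtain ⟨B, x0, _, h⟩ := Pool.Agent.U485.EH.main3 U ε D hε hD
  exact ⟨B, x0, h⟩

end Pool.Agent.Results.MP_a78e8f_nt.FewExceptionalLifts
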