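import Pool.Agent.U485.EH.M6

/-!
# A common generalisation of the theorems of Bombieri-Vinogradov and Barban-Davenport-Halberstam

The bound of Elliott and Halberstam up to the level `x / (log x) ^ B`, if the residue class is arbitrary modulo a divisor
`q ≤ √x / (log x) ^ B` of the modulus `n`, and is averaged over the lifts of this class to classes modulo `n`.

Proof. For a single `q` the errors modulo `n = q m` in the classes over the class `c(q)` form a compatible family of
functions of the lift; it is decomposed according to the additive frequencies modulo `m`. The frequencies with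
denominators `d > R` are treated by the large sieve (for the primes) and by an exact evaluation (for the expected
number), the frequencies with denominators `d ≤ R` by the theorem of Bombieri and Vinogradov with divisor weights, for
the moduli `q d ≤ Q R`.
-/

set_option autoImplicit false

namespace Pool.Agent.Results.MP_a78e8f_nt.LiftsMeanSquare

open Finset

/-- `π(x)` -/
def primePi (x : ℕ) : ℕ := ((Icc 1 x).filter (fun p : ℕ => p.Prime)).card

/-- `π(x; q, a)` -/
def primePiAP (x q a : ℕ) : ℕ := ((Icc 1 x).filter (fun p : ℕ => p.Prime ∧ p ≡ a [MOD q])).card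

/-- `|π(x; q, a) - π(x) / φ(q)|` -/
noncomputable def err (x q a : ℕ) : ℝ := |(primePiAP x q a : ℝ) - (primePi x : ℝ) / (Nat.totient q : ℝ)|

/-- The invertible residue classes `a` modulo `n` which lie over the class `c` modulo the divisor `q` of `n`. (Their
number is `φ(n) / φ(q)`, if `c` is prime to `q`.) -/
def lifts (n q c : ℕ) : Finset ℕ := (range n).filter (fun a => a.Coprime n ∧ a ≡ c [MOD q])

/-- For every `A` there are `B`, `C` with the following property for all large `x` and all `Q ≤ √x / (log x) ^ B`. For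
every `q` let `c(q)` be an arbitrary class prime to `q` and `y(q) ≤ x` an arbitrary height (they may depend on `x`, thus
the maxima over the classes modulo `q` and over the heights stand inside the sums over `q`).

(1) For `X ≤ x` the sum over all the moduli `n ≤ X` and all their divisors `q ≤ Q` of
`φ(q) ∑_a |π(y(q); n, a) - π(y(q)) / φ(n)| ^ 2`, where `a` runs over all the lifts modulo `n` of the class `c(q)`
modulo `q`, is at most `C (X x + x ^ 2 / (log x) ^ A)`.

(2) For `X ≤ x / (log x) ^ B` the sum over all the moduli `n ≤ X` and all their divisors `q ≤ Q` of the mean value of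
`|π(y(q); n, a) - π(y(q)) / φ(n)|` over the `φ(n) / φ(q)` lifts `a` modulo `n` of the class `c(q)` modulo `q` is at most
`C x / (log x) ^ A`. -/
theorem result (A : ℕ) : ∃ (B : ℕ) (C : ℝ) (x₀ : ℕ), ∀ x : ℕ, x₀ ≤ x → ∀ Q : ℕ,
    (Q : ℝ) * Real.log x ^ B ≤ Real.sqrt x →
    ∀ c y : ℕ → ℕ, (∀ q, 1 ≤ q → (c q).Coprime q) → (∀ q, y q ≤ x) →
    (∀ X : ℕ, X ≤ x → ∑ n ∈ Icc 1 X, ∑ q ∈ n.divisors.filter (fun q => q ≤ Q),
      (Nat.totient q : ℝ) * ∑ a ∈ lifts n q (c q), err (y q) n a ^ 2 ≤
        C * (X * x + x ^ 2 / Real.log x ^ A)) ∧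
    (∀ X : ℕ, (X : ℝ) * Real.log x ^ B ≤ x → ∑ n ∈ Icc 1 X, ∑ q ∈ n.divisors.filter (fun q => q ≤ Q),
      ((Nat.totient q : ℝ) / Nat.totient n) * ∑ a ∈ lifts n q (c q), err (y q) n a ≤
        C * (x / Real.log x ^ A)) := by
  obtain ⟨B1, C1, hC1, x1, hx1, h1⟩ := Pool.Agent.U485.EH.main1 A
  obtain ⟨B2, C2, hC2, x2, hx2, h2⟩ := Pool.Agent.U485.EH.main2 A
  refine ⟨B1 + B2, C1 + C2, max x1 x2, fun x hx Q hQ c y hc hy => ?_⟩
  have hxx1 : x1 ≤ x := (le_max_left _ _).trans hx
  have hxx2 : x2 ≤ x := (le_max_right _ _).trans hx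
  have hl : 1 ≤ Real.log x := Pool.Agent.H441R3.BV.one_le_log (hx1.trans hxx1)
  have hlog : 0 < Real.log x := by linarith
  have p1 : Real.log x ^ B1 ≤ Real.log x ^ (B1 + B2) := pow_le_pow_right₀ hl (by omega)
  have p2 : Real.log x ^ B2 ≤ Real.log x ^ (B1 + B2) := pow_le_pow_right₀ hl (by omega)
  have q1 : (Q : ℝ) * Real.log x ^ B1 ≤ Real.sqrt x :=
    (mul_le_mul_of_nonneg_left p1 (Nat.cast_nonneg _)).trans hQ
  have q2 : (Q : ℝ) * Real.log x ^ B2 ≤ Real.sqrt x :=
    (mul_le_mul_of_nonneg_left p2 (Nat.cast_nonneg _)).trans hQ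
  refine ⟨fun X hX => ?_, fun X hX => ?_⟩
  · refine (h1 x hxx1 Q X q1 hX c y hc hy).trans ?_
    apply mul_le_mul_of_nonneg_right _ (by positivity)
    linarith
  · refine (h2 x hxx2 Q X q2 ((mul_le_mul_of_nonneg_left p2 (Nat.cast_nonneg _)).trans hX) c y hc hy).trans ?_
    apply mul_le_mul_of_nonneg_right _ (by positivity)
    linarith

end Pool.Agent.Results.MP_a78e8f_nt.LiftsMeanSquare
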