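import Pool.Agent.U108.ML.G
import Pool.Agent.U108.ML.H
import Pool.Agent.U856.EH.M11
import Pool.Agent.U856.EH.M15

/-!
# The original level of Elliott and Halberstam for almost all residues which are products of members of thin families
# plus arbitrary functions, or determinants

Let `u_k : I_k → ℤ`, `1 ≤ k ≤ d`, be `d ≥ 2` arbitrary finite families of integers, `|u_k| ≤ N_k`, whose additive energy
of some order is minimal up to powers of `log P`, `P = N_1 ⋯ N_d`: the primes, the powers of a fixed exponent, the values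
of a polynomial at integers or at primes, any subset of `[1, N_k]` with at least `N_k / (log P) ^ C` elements, ... For
almost all `i ∈ I_1 × ⋯ × I_d` the primes up to `P` have the level of distribution `P / log ^ K P` in the residue classes of

  `c u_1(i_1) ⋯ u_d(i_d) + R_1(i) + ⋯ + R_d(i)`,

where `R_k` is an ARBITRARY function with integral values which does not depend on the `k`-th coordinate (for `d = 2`: in
the residue classes of `c u(i) v(j) + f(i) + g(j)`, for arbitrary functions `f`, `g`), and in particular in the residue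
classes of the determinants of the `d × d` matrices whose diagonal entries run through thin families, the entries off the
diagonal being ARBITRARY fixed integers. The weights on the moduli are arbitrary (fixed before the residue), the lengths and
shifts may depend on the modulus.

Method (new, `Pool.Agent.U108.ML`): by the inequalities of Cauchy, Schwarz and Hölder the functions `R_k` are removed from
the exponential sum, which leads to a multilinear exponential sum whose coefficients, the numbers of representations by sums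
of elements of the `k`-th family, are bounded in mean square by the energy, so that a power of the sum is bounded by the
number of the solutions of `‖θ x_1 ⋯ x_{d-1}‖ < 1 / N_d`; the mean value of a power of this number over `θ` is bounded by
means of the divisor function. Hence the integers above have an additive energy of high order which is minimal up to powers
of the logarithm (`Pool.Agent.U108.ML.energy`), and the theorem of helper856 on families of nearly minimal energy
(`Pool.Agent.U856.EH.few`, `dual`) applies.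
-/

set_option autoImplicit false

namespace Pool.Agent.Results.MP_a78e8f_nt.MultilinearValues

open Finset
open Pool.Agent.TH212.EH (En)

/-- `ψ(y; q, b)`: the sum of `Λ(n)` over the positive integers `n ≤ y` with `n ≡ b (mod q)`. -/
noncomputable def psi (y q : ℕ) (b : ℤ) : ℝ :=
  ∑ n ∈ (Icc 1 y).filter (fun n : ℕ => (n : ℤ) ≡ b [ZMOD q]), ArithmeticFunction.vonMangoldt n

/-- `π(y; q, b)`: the number of the primes `n ≤ y` with `n ≡ b (mod q)`. -/
noncomputable def pi (y q : ℕ) (b : ℤ) : ℝ :=
  (((Icc 1 y).filter (fun n : ℕ => n.Prime ∧ (n : ℤ) ≡ b [ZMOD q])).card : ℝ)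

/-- `li y`: the integral of `1 / log t` over `[2, y]`; it is `0` for `y < 2`. -/
noncomputable def li (y : ℕ) : ℝ := if 2 ≤ y then ∫ t in (2 : ℝ)..y, 1 / Real.log t else 0

/-- The first error term: `ψ(y; q, b) - y / φ(q)`. -/
noncomputable def Epsi (y q : ℕ) (b : ℤ) : ℝ := psi y q b - (y : ℝ) / Nat.totient q

/-- The second error term, `π(y; q, b) - li y / φ(q)`. -/
noncomputable def Epi (y q : ℕ) (b : ℤ) : ℝ := pi y q b - li y / Nat.totient q

/-- The sum of `λ(q) E(y(q); q, a + h(q))` over the `q ≤ Q` for which `a + h(q)` and `q` are coprime. -/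
noncomputable def weighted (E : ℕ → ℕ → ℤ → ℝ) (lam : ℕ → ℝ) (y : ℕ → ℕ) (h : ℕ → ℤ) (Q : ℕ) (a : ℤ) : ℝ :=
  ∑ q ∈ (Icc 1 Q).filter (fun q : ℕ => Int.gcd (a + h q) q = 1), lam q * E (y q) q (a + h q)

/-- The level of Elliott and Halberstam: `N / log ^ K N`. -/
noncomputable def level (K N : ℕ) : ℝ := N / Real.log N ^ K

open Classical in
/-- Almost all the members of the finite family `v` have the level of distribution `N / log ^ K N`. The shifts `h_l(q)`
are from a set `H` of at most `log ^ T N` integers in `[-B N, B N]`, there are at most `log ^ T N` indices `l`, the weights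
satisfy `|λ_l(q)| ≤ (τ(q) log N) ^ T` and the lengths satisfy `y_l(q) ≤ B N`; everything else is arbitrary. Then, for all
the `i` with at most `#ι / log ^ U N` exceptions, `weighted` (at `a = v i`) has absolute value at most `N / log ^ U N` for
all `l`, all `Q ≤ N / log ^ K N` and all the truncations `min z y_l(q)` of the lengths. -/
def Almost (E : ℕ → ℕ → ℤ → ℝ) (B T U K N : ℕ) {ι : Type} [Fintype ι] (v : ι → ℤ) : Prop :=
  ∀ H : Finset ℤ, (H.card : ℝ) ≤ Real.log N ^ T → (∀ τ ∈ H, |τ| ≤ B * N) →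
    ∀ n : ℕ, (n : ℝ) ≤ Real.log N ^ T → ∀ (lam : Fin n → ℕ → ℝ) (y : Fin n → ℕ → ℕ) (h : Fin n → ℕ → ℤ),
      (∀ l q, |lam l q| ≤ Real.log N ^ T * (q.divisors.card : ℝ) ^ T) → (∀ l q, y l q ≤ B * N) → (∀ l q, h l q ∈ H) →
      ((univ.filter (fun i : ι => ¬ ∀ l, ∀ Q : ℕ, (Q : ℝ) ≤ level K N → ∀ z : ℕ, z ≤ B * N →
        |weighted E (lam l) (fun q => min z (y l q)) (h l) Q (v i)| ≤ N / Real.log N ^ U)).card : ℝ) ≤
        Fintype.card ι / Real.log N ^ U

open Classical in
/-- The dual form, with absolute values for every modulus: for arbitrary coefficients `c_i` with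
`|c_i| ≤ log ^ T N`, the sum over all the `q ≤ Q` of `τ(q) ^ T` times the absolute value of the sum of
`c_i E(y(q); q, v i + h(q))` over the `i` with `v i + h(q)` coprime to `q` is at most `N #ι / log ^ U N`. -/
def Dual (E : ℕ → ℕ → ℤ → ℝ) (B T U K N : ℕ) {ι : Type} [Fintype ι] (v : ι → ℤ) : Prop :=
  ∀ H : Finset ℤ, (H.card : ℝ) ≤ Real.log N ^ T → (∀ τ ∈ H, |τ| ≤ B * N) →
    ∀ c : ι → ℝ, (∀ i, |c i| ≤ Real.log N ^ T) → ∀ Q : ℕ, (Q : ℝ) ≤ level K N →
      ∀ y : ℕ → ℕ, (∀ q, y q ≤ B * N) → ∀ h : ℕ → ℤ, (∀ q, h q ∈ H) →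
      ∑ q ∈ Icc 1 Q, (q.divisors.card : ℝ) ^ T * |∑ i ∈ univ.filter (fun i : ι => Int.gcd (v i + h q) q = 1),
        c i * E (y q) q (v i + h q)| ≤ N * Fintype.card ι / Real.log N ^ U

/-- The additive energy of order `h` of a finite family `u`: the number of the solutions of
`u(x_1) + ⋯ + u(x_h) = u(y_1) + ⋯ + u(y_h)`. -/
noncomputable def energy (h : ℕ) {ι : Type} [Fintype ι] (u : ι → ℤ) : ℕ :=
  Nat.card {q : (Fin h → ι) × (Fin h → ι) // ∑ j, u (q.1 j) = ∑ j, u (q.2 j)}

/-- `u` is a finite family of integers in `[-N, N]`, and its energy of order `h` is at most `(log P) ^ C` times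
`(number of the elements) ^ (2 h) / N`. -/
def Thin (h C P N : ℕ) {ι : Type} [Fintype ι] (u : ι → ℤ) : Prop :=
  (∀ i, |u i| ≤ N) ∧ (energy h u : ℝ) * N ≤ Real.log P ^ C * (Fintype.card ι : ℝ) ^ (2 * h)

lemma pi_eq (y q : ℕ) (b : ℤ) : pi y q b = Pool.Agent.U856.EH.FZ Pool.Agent.U856.EH.pr y q b := by
  unfold pi Pool.Agent.U856.EH.FZ Pool.Agent.U856.EH.pr
  rw [← sum_filter, filter_filter, sum_const, nsmul_eq_mul, mul_one]
  congr 2
  apply filter_congr
  intro n _
  exact and_comm

lemma allE (E : ℕ → ℕ → ℤ → ℝ) (hE : E = Epsi ∨ E = Epi) : Pool.Agent.U856.EH.AllD E := by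
  rcases hE with h | h
  · rw [h]
    exact Pool.Agent.U856.EH.allS
  · have h1 : E = Pool.Agent.U856.EH.DP := by
      rw [h]
      funext y q b
      unfold Epi Pool.Agent.U856.EH.DP
      rw [pi_eq]
      rfl
    rw [h1]
    exact Pool.Agent.U856.EH.allP

lemma general (E : ℕ → ℕ → ℤ → ℝ) (hE : E = Epsi ∨ E = Epi) (B C T U p : ℕ) : ∃ K N₀ : ℕ, ∀ N : ℕ, N₀ ≤ N →
    ∀ (ι : Type) [Fintype ι] (v : ι → ℤ), (∀ i, |v i| ≤ B * N) →
    (En p v : ℝ) * N ≤ Real.log N ^ C * (Fintype.card ι : ℝ) ^ (2 * p) →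
    ∀ B' : ℕ, B' ≤ B → Almost E B' T U K N v ∧ Dual E B' T U K N v := by
  classical
  obtain ⟨K1, n1, h1⟩ := Pool.Agent.U856.EH.few E (allE E hE) p B C T U T
  obtain ⟨K2, n2, h2⟩ := Pool.Agent.U856.EH.dual E (allE E hE) p B C T U T
  obtain ⟨n3, h3⟩ := Pool.Agent.TH212.EH.large 1 (n1 + n2)
  refine ⟨K1 + K2, n3, fun N hN ι _ v hs hen B' hB => ?_⟩
  obtain ⟨hN1, _, hL⟩ := h3 N hN
  have hBN : B' * N ≤ B * N := Nat.mul_le_mul_right _ hB
  have hBNz : ((B' : ℤ) * N) ≤ (B : ℤ) * N := by exact_mod_cast hBN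
  constructor
  · intro H hH1 hH2 n hn lam y h hlam hy hh
    refine le_trans ?_ (h1 N (by omega) ι v hs hen H hH1 (fun τ hτ => (hH2 τ hτ).trans hBNz) n hn lam y h hlam
      (fun l q => (hy l q).trans hBN) hh)
    apply Nat.cast_le.2
    apply card_le_card
    intro i hi
    rw [mem_filter] at hi ⊢
    refine ⟨mem_univ _, fun hcon => hi.2 fun l Q hQ z hz => ?_⟩
    exact hcon l Q (hQ.trans (Pool.Agent.U856.EH.level_anti K1 (K1 + K2) N (by omega) hL)) z (hz.trans hBN)
  · intro H hH1 hH2 c hc Q hQ y hy h hh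
    exact h2 N (by omega) ι v hs hen H hH1 (fun τ hτ => (hH2 τ hτ).trans hBNz) c hc Q
      (hQ.trans (Pool.Agent.U856.EH.level_anti K2 (K1 + K2) N (by omega) hL)) y (fun q => (hy q).trans hBN) h hh

/-- **The original level of Elliott and Halberstam along multilinear values of thin families.** Let `h ≥ 1`, `d ≥ 2`, `m`,
`B`, `C`, `T`, `U` be given, and let `E(y; q, a)` be `ψ(y; q, a) - y / φ(q)` or `π(y; q, a) - li y / φ(q)`. There is a `K`
such that the following holds for all large `P`. Let `P = N_1 ⋯ N_d` with `N_k ^ m ≥ P` for all `k`, and let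
`u_k : I_k → ℤ` be finite families with `Thin h C P (N_k) (u_k)`.

(1) Let `c ≠ 0` be an integer with `|c| ≤ (log P) ^ B` and let `R_1, …, R_d` be arbitrary integral functions of
`i ∈ I_1 × ⋯ × I_d` such that `R_k` does not depend on the `k`-th coordinate, with
`|v(i)| ≤ B P` for all `i`, `v(i) = c ∏ u_k(i_k) + ∑ R_k(i)`. Then the residues `v(i)` satisfy `Almost` and `Dual`, with the
level `P / log ^ K P`.

(2) The same holds for `v(i)` = the determinant of the matrix with the diagonal entries `u_k(i_k)` and arbitrary fixed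
integral entries off the diagonal, if `|v(i)| ≤ B P` for all `i`. -/
theorem result (h d m B C T U : ℕ) (hh : 1 ≤ h) (hd : 2 ≤ d) (E : ℕ → ℕ → ℤ → ℝ) (hE : E = Epsi ∨ E = Epi) :
    ∃ K P₀ : ℕ, ∀ (P : ℕ) (N : Fin d → ℕ), P₀ ≤ P → ∏ k, N k = P → (∀ k, P ≤ N k ^ m) →
      ∀ (I : Fin d → Type) [∀ k, Fintype (I k)] (u : ∀ k, I k → ℤ), (∀ k, Thin h C P (N k) (u k)) →
      (∀ c : ℤ, c ≠ 0 → |(c : ℝ)| ≤ Real.log P ^ B →
        ∀ R : Fin d → (∀ k, I k) → ℤ, (∀ k i x, R k (Function.update i k x) = R k i) →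
        (∀ i : ∀ k, I k, |c * ∏ k, u k (i k) + ∑ k, R k i| ≤ B * P) →
        Almost E B T U K P (fun i : ∀ k, I k => c * ∏ k, u k (i k) + ∑ k, R k i) ∧
        Dual E B T U K P (fun i : ∀ k, I k => c * ∏ k, u k (i k) + ∑ k, R k i)) ∧
      (∀ M : Matrix (Fin d) (Fin d) ℤ,
        (∀ i : ∀ k, I k, |(Matrix.of fun k l => if k = l then u k (i k) else M k l).det| ≤ B * P) →
        Almost E B T U K P (fun i : ∀ k, I k => (Matrix.of fun k l => if k = l then u k (i k) else M k l).det) ∧
        Dual E B T U K P (fun i : ∀ k, I k => (Matrix.of fun k l => if k = l then u k (i k) else M k l).det)) := by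
  classical
  obtain ⟨r, rfl⟩ : ∃ r, d = r + 2 := ⟨d - 2, by omega⟩
  obtain ⟨h', C', P₁, hh', h1⟩ := Pool.Agent.U108.ML.energy_log h r (m + 2) B C hh (by omega)
  obtain ⟨K, N₀, h2⟩ := general E hE B C' T U h'
  refine ⟨K, P₁ + N₀ + 3, ?_⟩
  intro P N hP hNP hNm I _ u hu
  have hlP : (1 : ℝ) ≤ Real.log P := by
    rw [Real.le_log_iff_exp_le (by exact_mod_cast (by omega : 0 < P))]
    have h3 : (3 : ℝ) ≤ P := by exact_mod_cast (by omega : 3 ≤ P)
    have := Real.exp_one_lt_d9
    linarith
  have hNm' : ∀ k, P ≤ N k ^ (m + 2) := by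
    intro k
    have hN0 : 0 < N k := by
      rcases Nat.eq_zero_or_pos (N k) with h0 | h0
      · have : ∏ k, N k = 0 := prod_eq_zero (mem_univ k) h0
        omega
      · exact h0
    exact (hNm k).trans (Nat.pow_le_pow_right hN0 (by omega))
  have main : ∀ c : ℤ, c ≠ 0 → |(c : ℝ)| ≤ Real.log P ^ B →
      ∀ R : Fin (r + 2) → (∀ k, I k) → ℤ, (∀ k i x, R k (Function.update i k x) = R k i) →
      (∀ i : ∀ k, I k, |c * ∏ k, u k (i k) + ∑ k, R k i| ≤ B * P) →
      Almost E B T U K P (fun i : ∀ k, I k => c * ∏ k, u k (i k) + ∑ k, R k i) ∧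
      Dual E B T U K P (fun i : ∀ k, I k => c * ∏ k, u k (i k) + ∑ k, R k i) := by
    intro c hc hcB R hR hv
    have h3 := h1 N P (by omega) hNP hNm' I u (fun k => (hu k).1) (fun k => (hu k).2) c hc hcB R hR
    exact h2 P (by omega) (∀ k, I k) (fun i : ∀ k, I k => c * ∏ k, u k (i k) + ∑ k, R k i) hv h3 B le_rfl
  refine ⟨main, ?_⟩
  intro M hv
  obtain ⟨R, hR1, hR2⟩ := Pool.Agent.U108.ML.det_withDiag (by omega : 1 ≤ r + 2) M
  have e : ∀ i : ∀ k, I k, (Matrix.of fun k l => if k = l then u k (i k) else M k l).det =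
      1 * ∏ k, u k (i k) + ∑ k, R k (fun k => u k (i k)) := by
    intro i
    rw [one_mul]
    exact hR2 (fun k => u k (i k))
  have e2 : (fun i : ∀ k, I k => (Matrix.of fun k l => if k = l then u k (i k) else M k l).det) =
      (fun i : ∀ k, I k => 1 * ∏ k, u k (i k) + ∑ k, R k (fun k => u k (i k))) := funext e
  rw [e2]
  refine main 1 one_ne_zero ?_ (fun k i => R k (fun k => u k (i k))) ?_ ?_
  · rw [Int.cast_one, abs_one]
    exact one_le_pow₀ hlP
  · intro k i x
    have h2 : (fun l => u l (Function.update i k x l)) = Function.update (fun l => u l (i l)) k (u k x) := by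
      funext l
      by_cases hl : l = k
      · subst hl
        rw [Function.update_self, Function.update_self]
      · rw [Function.update_of_ne hl, Function.update_of_ne hl]
    rw [h2, hR1]
  · intro i
    have := hv i
    rw [e i] at this
    exact this

end Pool.Agent.Results.MP_a78e8f_nt.MultilinearValues
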