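import Pool.Agent.U365.MOD.E

/-!
# The bound of Elliott and Halberstam in all but few classes, for individual moduli on the orbits of Euler's function

Let `φ_k` be the `k`-th iterate of Euler's function and `f` a positive multiplicative function of at most polynomial growth
with `f p = p + c` for all large primes `p` (the identity, Euler's function, the sum of the divisors). There is a function
`κ(m)` tending to infinity such that for almost all `m`, with `K = κ(m)`: for ALL the integers `n = α f(φ_k m) + h` with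
`k, α, |h| ≤ K`, `h ≠ 0`, for ALL the moduli `Q = t n`, `t ≤ (log n)^K`, for ALL `A ≤ (K - 2) / 3` and ALL `x` between
`Q (log Q)^(3 A + 2)` and `Q (log Q)^K`,

* the sum of `|ψ(x; Q, a) - x / φ(Q)|` over ALL the reduced classes `a` modulo `Q` is at most `x / (log x)^A`;
* `|ψ(x; Q, a) - x / φ(Q)| ≤ (x / φ(Q)) / (log x)^A` for all but at most `φ(Q) / (log x)^A` of the reduced classes `a`.

So the bound of the problem (for an individual modulus, at the level `x / (log x)^(3 A + 2)`) holds for thin families of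
moduli, if the maximum is extended over all but few classes. The theorem of Barban, Davenport and Halberstam gives this for
almost all moduli up to a given limit, and says nothing on the values of `φ_k`, which have density zero and are taken with
large multiplicities.

Proof. The asymptotic formula of Hooley for the variance in all these cases (`N826/IT`, `MP_5d318d_nt.ModuliInClasses`,
starting files), and the inequalities of Cauchy and Chebyshev.
-/

set_option autoImplicit false

namespace Pool.Agent.Results.MP_a78e8f_nt.OrbitModuli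

open Finset Filter Topology
open Pool.Agent.N826.IT.Orb (Shifted AlmostAll)

/-- `ψ(x; Q, a) = ∑_{n ≤ x, n ≡ a mod Q} Λ(n)` for `0 ≤ a < Q` -/
noncomputable def psiAP (x : ℝ) (Q a : ℕ) : ℝ :=
  ∑ n ∈ (Icc 1 ⌊x⌋₊).filter (fun n => n % Q = a), ArithmeticFunction.vonMangoldt n

open Classical in
/-- For all real `x` with `Q (log Q)^(3 A + 2) ≤ x ≤ Q (log Q)^K`: the sum of `|ψ(x; Q, a) - x / φ(Q)|` over the reduced
classes `a` modulo `Q` is at most `x / (log x)^A`, and at most `φ(Q) / (log x)^A` of the reduced classes `a` have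
`|ψ(x; Q, a) - x / φ(Q)| > x / (φ(Q) (log x)^A)`. -/
def Bound (A K Q : ℕ) : Prop :=
  ∀ x : ℝ, (Q : ℝ) * Real.log Q ^ (3 * A + 2) ≤ x → x ≤ Q * Real.log Q ^ K →
    ∑ a ∈ (range Q).filter (fun a => Nat.Coprime a Q), |psiAP x Q a - x / (Nat.totient Q : ℝ)| ≤ x / Real.log x ^ A ∧
    (((range Q).filter (fun a => Nat.Coprime a Q ∧ x / (Nat.totient Q * Real.log x ^ A) <
      |psiAP x Q a - x / (Nat.totient Q : ℝ)|)).card : ℝ) ≤ Nat.totient Q / Real.log x ^ A

/-- **The bound of Elliott and Halberstam in all but few classes, along the orbits of Euler's function.** (1) Let `f` be a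
positive multiplicative function of at most polynomial growth with `f p = p + c` for all large primes `p`. There is a function
`κ` tending to infinity such that for almost all `m`, with `K = κ m`, ALL integers `n = α f(φ_k m) + h` with `k ≤ K`,
`1 ≤ α ≤ K`, `0 < |h| ≤ K` are positive, and ALL their multiples `Q = t n` with `1 ≤ t ≤ (log n)^K` satisfy `Bound A K Q` for
ALL `A` with `3 A + 2 ≤ K`. (2) The identity, Euler's function and the sum of the divisors are examples of such functions
`f`. -/
theorem result :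
    (∀ (f : ℕ → ℕ) (c : ℤ), Shifted f c → ∃ κ : ℕ → ℕ, Tendsto κ atTop atTop ∧
      AlmostAll (fun m => ∀ k α : ℕ, ∀ h : ℤ, k ≤ κ m → 1 ≤ α → α ≤ κ m → |h| ≤ κ m → h ≠ 0 →
        0 < (α : ℤ) * f (Nat.totient^[k] m) + h ∧
        ∀ n : ℕ, (n : ℤ) = (α : ℤ) * f (Nat.totient^[k] m) + h → ∀ t : ℕ, 1 ≤ t → (t : ℝ) ≤ Real.log n ^ κ m →
          ∀ A : ℕ, 3 * A + 2 ≤ κ m → Bound A (κ m) (t * n))) ∧
    (Shifted (fun m => m) 0 ∧ Shifted Nat.totient (-1) ∧ Shifted (fun m => ∑ d ∈ m.divisors, d) 1) := by
  refine ⟨fun f c hf => ?_, ⟨Pool.Agent.N826.IT.Orb.shifted_id, Pool.Agent.N826.IT.Orb.shifted_totient,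
    Pool.Agent.N826.IT.Orb.shifted_sigma⟩⟩
  obtain ⟨κ, hκ, h⟩ := Pool.Agent.N826.IT.Orb.orbits _ Pool.Agent.U365.MOD.rare_EHK hf
  refine ⟨κ, hκ, Pool.Agent.N826.IT.Orb.almostAll_mono h (fun m hm k α h hk hα1 hα hh hne => ?_)⟩
  obtain ⟨h1, h2⟩ := hm k α h hk hα1 hα hh hne
  refine ⟨by omega, fun n hn t ht1 ht2 A hA => ?_⟩
  rw [← hn, Int.toNat_natCast] at h2
  exact h2 t ht1 ht2 A hA

end Pool.Agent.Results.MP_a78e8f_nt.OrbitModuli
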